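import Pool.Agent.helper1.LI.Top
import Pool.Agent.helper1.LI.Top7
import Pool.Agent.helper1.LI.Sep

/-!
MP_0ec205_nt, function field model of Q1 over a fixed finite field: an explicit infinite family of
curves `y² = (1 - x)(x^(2g) + c x^g - 1)` of genus `g = 2^k → ∞` over `F_q`, `q` any power of `3`
(`c = -1`) or of `7` (`c = 3`), for which the Linear Independence statement holds.

Authors: helper1 (argument, assembly) and the modules of the project LI by helper7, 11, 17, 23, 28,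
29, 34, 39, 41, 42, 45, 46, 51, 52, 58, 59, 64, 68, 76, 78, 79, 80, 88, 93, 94, 96.
-/

set_option autoImplicit false

namespace Pool.Agent.Results.MP_0ec205_nt.FunctionFieldLI

open Polynomial

theorem result (p : ℕ) [Fact p.Prime] (c : ZMod p) (k : ℕ)
    (h : (p = 3 ∧ c = -1 ∧ (k % 6 = 3 ∨ k % 6 = 5)) ∨
      (p = 7 ∧ c = 3 ∧ k % 21 ∈ ({2, 4, 5, 7, 10, 13, 14, 16, 17, 19, 20} : Finset ℕ)))
    (a : ℕ) (ha : 1 ≤ a) :
    ((1 - X) * (X ^ (2 * 2 ^ k) + C c * X ^ 2 ^ k - 1) : (ZMod p)[X]).Separable ∧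
    ((1 - X) * (X ^ (2 * 2 ^ k) + C c * X ^ 2 ^ k - 1) : (ZMod p)[X]).natDegree =
      2 * 2 ^ k + 1 ∧
    ∃ θ : Fin (2 ^ k) → ℝ, StrictMono θ ∧ (∀ i, 0 < θ i ∧ θ i < Real.pi) ∧
      (∀ m : ℕ, 1 ≤ m →
        (Nat.card {z : GaloisField p (a * m) × GaloisField p (a * m) //
          z.2 ^ 2 = aeval z.1
            ((1 - X) * (X ^ (2 * 2 ^ k) + C c * X ^ 2 ^ k - 1) : (ZMod p)[X])} : ℝ) =
          (p : ℝ) ^ (a * m)
            - ∑ i, 2 * (Real.sqrt ((p : ℝ) ^ a)) ^ m * Real.cos (m * θ i)) ∧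
      LinearIndependent ℚ (Fin.cons Real.pi θ : Fin (2 ^ k + 1) → ℝ) := by
  rcases h with ⟨rfl, rfl, hk⟩ | ⟨rfl, rfl, hk⟩
  · have e : ((1 - X) * (X ^ (2 * 2 ^ k) + C (-1) * X ^ 2 ^ k - 1) : (ZMod 3)[X]) =
        LIF.Dp (X ^ (2 * 2 ^ k) - X ^ (2 ^ k) - 1 : (ZMod 3)[X]) := by
      unfold LIF.Dp
      rw [C_neg, C_1]
      ring
    rw [e]
    exact ⟨LIF.good_separable (LIF.good3 k), LIF.good_natDegree (LIF.good3 k),
      LIF.explicit hk ha⟩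
  · have e : ((1 - X) * (X ^ (2 * 2 ^ k) + C 3 * X ^ 2 ^ k - 1) : (ZMod 7)[X]) =
        LIF.Dp (X ^ (2 * 2 ^ k) + 3 * X ^ (2 ^ k) - 1 : (ZMod 7)[X]) := by
      unfold LIF.Dp
      rw [show (C (3 : ZMod 7) : (ZMod 7)[X]) = 3 from C_ofNat 3]
    rw [e]
    exact ⟨LIF.good_separable (LIF.good7 k), LIF.good_natDegree (LIF.good7 k),
      LIF.explicit7 hk ha⟩

end Pool.Agent.Results.MP_0ec205_nt.FunctionFieldLI
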